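import Mathlib
import Pool.Agent.H54.SidonCore

set_option autoImplicit false

namespace Pool.Agent.Results.MP_bd8c52_co.MomentCriterion

open Finset Polynomial Pool.Agent.H54.Sidon

/-- The projection of the plane `F_p²` along the lines of slope `m` (`none` is the vertical
direction): two points lie on a common line of that direction iff they have the same image. -/
def proj {p : ℕ} : Option (ZMod p) → ZMod p × ZMod p → ZMod p
  | none, x => x.1
  | some m, x => x.2 - m * x.1

theorem two_add : ∀ x : ZMod 2 × ZMod 2, x + x = 0 := by decide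

variable {p : ℕ} [hp : Fact p.Prime]

theorem proj_none_eq : proj (p := p) none = ell 1 0 := by
  funext x; simp [proj, ell]

theorem proj_some_eq (m : ZMod p) : proj (some m) = ell (-m) 1 := by
  funext x; simp only [proj, ell]; ring

/-- (moments) ⇒ the power sums of all functionals vanish -/
theorem P_zero_of_moments (S : Finset (ZMod p × ZMod p)) (k : ℕ)
    (h : ∀ i j : ℕ, i + j = k → ∑ s ∈ S, s.1 ^ i * s.2 ^ j = 0) (u v : ZMod p) :
    ∑ s ∈ S, ell u v s ^ k = 0 := by
  have : ∀ s ∈ S, ell u v s ^ k =
      ∑ j ∈ range (k + 1), (u ^ j * v ^ (k - j) * (k.choose j : ZMod p)) *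
        (s.1 ^ j * s.2 ^ (k - j)) := by
    intro s _
    rw [ell, add_pow]
    apply Finset.sum_congr rfl
    intro j _
    rw [mul_pow, mul_pow]
    ring
  rw [Finset.sum_congr rfl this, Finset.sum_comm]
  apply Finset.sum_eq_zero
  intro j hj
  rw [mem_range] at hj
  rw [← Finset.mul_sum, h j (k - j) (by omega), mul_zero]

/-- enough vanishing slopes ⇒ the moments vanish -/
theorem moments_of_many (S : Finset (ZMod p × ZMod p)) (k : ℕ) (hkp : k < p)
    (A : Finset (Option (ZMod p))) (hA : k < A.card)
    (h : ∀ m ∈ A, ∑ s ∈ S, proj m s ^ k = 0) (i j : ℕ) (hij : i + j = k) :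
    ∑ s ∈ S, s.1 ^ i * s.2 ^ j = 0 := by
  classical
  set c : ℕ → ZMod p := fun j => (k.choose j : ZMod p) * (-1) ^ j * ∑ s ∈ S, s.1 ^ j * s.2 ^ (k - j)
    with hc
  set f : (ZMod p)[X] := ∑ j ∈ range (k + 1), C (c j) * X ^ j with hf
  have hfc : ∀ j, f.coeff j = if j < k + 1 then c j else 0 := by
    intro j
    rw [hf, finsetSum_coeff]
    simp only [coeff_C_mul, coeff_X_pow, mul_ite, mul_one, mul_zero]
    rw [Finset.sum_ite_eq]
    simp
  have hfe : ∀ z : ZMod p, f.eval z = ∑ s ∈ S, proj (some z) s ^ k := by
    intro z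
    rw [hf, eval_finsetSum]
    have : ∀ s ∈ S, proj (some z) s ^ k =
        ∑ j ∈ range (k + 1), (k.choose j : ZMod p) * (-1) ^ j * (s.1 ^ j * s.2 ^ (k - j)) * z ^ j := by
      intro s _
      have h1 : proj (some z) s = -(z * s.1) + s.2 := by simp [proj]; ring
      rw [h1, add_pow]
      apply Finset.sum_congr rfl
      intro j _
      rw [neg_pow, mul_pow]
      ring
    rw [Finset.sum_congr rfl this, Finset.sum_comm]
    apply Finset.sum_congr rfl
    intro j _
    simp only [eval_mul, eval_C, eval_pow, eval_X, hc]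
    rw [Finset.mul_sum, Finset.sum_mul]
  have hfd : f.natDegree ≤ k := by
    rw [natDegree_le_iff_coeff_eq_zero]
    intro n hn
    rw [hfc, if_neg (by omega)]
  -- the affine slopes in `A`
  set B : Finset (ZMod p) := univ.filter (fun z => some z ∈ A) with hB
  have hBz : ∀ z ∈ B, f.eval z = 0 := by
    intro z hz
    rw [hfe]
    exact h _ (by simpa [hB] using hz)
  have hAB : A ⊆ insert none (B.image some) := by
    intro m hm
    rcases m with _ | z
    · exact Finset.mem_insert_self _ _
    · apply Finset.mem_insert_of_mem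
      apply Finset.mem_image_of_mem
      simpa [hB] using hm
  have hcardB : (B.image some).card = B.card :=
    Finset.card_image_of_injective _ (Option.some_injective _)
  have hf0 : f = 0 := by
    by_cases hnone : none ∈ A
    · have hck : f.coeff k = 0 := by
        rw [hfc, if_pos (by omega)]
        simp only [hc]
        have h1 := h none hnone
        simp only [proj] at h1
        have h2 : ∑ s ∈ S, s.1 ^ k * s.2 ^ (k - k) = 0 := by simpa using h1
        rw [h2, mul_zero]
      have hB1 : k ≤ B.card := by
        have h1 := Finset.card_le_card hAB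
        have h2 := Finset.card_insert_le none (B.image some)
        omega
      by_contra hne
      have hdlt : f.natDegree < k := by
        rcases Nat.lt_or_ge f.natDegree k with hlt | hge
        · exact hlt
        · exfalso
          have heq : f.natDegree = k := le_antisymm hfd hge
          have : f.leadingCoeff = 0 := by rw [leadingCoeff, heq]; exact hck
          exact hne (leadingCoeff_eq_zero.1 this)
      exact hne (eq_zero_of_natDegree_lt_card_of_eval_eq_zero' f B hBz (by omega))
    · have hB1 : k < B.card := by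
        have : A ⊆ B.image some := by
          intro m hm
          rcases Finset.mem_insert.1 (hAB hm) with h1 | h1
          · exact absurd (h1 ▸ hm) hnone
          · exact h1
        have h1 := Finset.card_le_card this
        omega
      exact eq_zero_of_natDegree_lt_card_of_eval_eq_zero' f B hBz (by omega)
  have h1 := hfc i
  rw [hf0, coeff_zero, if_pos (by omega)] at h1
  simp only [hc] at h1
  have h2 : k - i = j := by omega
  rw [h2] at h1
  refine (mul_eq_zero.1 h1.symm).resolve_left (mul_ne_zero (choose_ne_zero' (by omega) hkp) ?_)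
  exact pow_ne_zero _ (neg_ne_zero.2 one_ne_zero)

/-- if every functional is injective or zero on `T` then `T` is a subgroup -/
theorem subgroup_of_dichotomy (T : Finset (ZMod p × ZMod p)) (hT : T.card = p) (h0 : 0 ∈ T)
    (h : ∀ u v : ZMod p, Set.InjOn (ell u v) (T : Set (ZMod p × ZMod p)) ∨
      ∀ t ∈ T, ell u v t = 0) :
    ∃ H : AddSubgroup (ZMod p × ZMod p), ∀ x, x ∈ H ↔ x ∈ T := by
  classical
  obtain ⟨t0, ht0, hne⟩ : ∃ t ∈ T, t ≠ 0 := by
    by_contra hcon
    push Not at hcon
    have : T ⊆ {0} := fun t ht => by rw [hcon t ht]; simp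
    have := Finset.card_le_card this
    rw [hT, Finset.card_singleton] at this
    have := hp.out.two_le
    omega
  have hker : ∀ t ∈ T, ell t0.2 (-t0.1) t = 0 := by
    refine (h t0.2 (-t0.1)).resolve_left (fun hinj => ?_)
    apply hne
    apply hinj ht0 h0
    simp [ell]; ring
  set φ : ZMod p × ZMod p →+ ZMod p :=
    { toFun := ell t0.2 (-t0.1)
      map_zero' := by simp [ell]
      map_add' := by intro x y; simp [ell]; ring } with hφ
  have hsub : T ⊆ univ.filter (fun x => φ x = 0) := by
    intro t ht
    rw [mem_filter]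
    exact ⟨mem_univ _, hker t ht⟩
  have hcard : (univ.filter (fun x => φ x = 0)).card ≤ p := by
    have hk : ∀ x, φ x = t0.2 * x.1 - t0.1 * x.2 := by
      intro x
      change ell t0.2 (-t0.1) x = _
      simp [ell]; ring
    by_cases h1 : t0.1 = 0
    · have h2 : t0.2 ≠ 0 := fun h2 => hne (Prod.ext h1 h2)
      have : (univ.filter (fun x => φ x = 0)).card ≤ (univ : Finset (ZMod p)).card := by
        apply Finset.card_le_card_of_injOn (fun x => x.2) (fun _ _ => mem_univ _)
        intro x hx y hy hxy
        simp only [coe_filter, mem_univ, true_and, Set.mem_ofPred_eq, hk, h1] at hx hy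
        simp only [zero_mul, sub_zero, mul_eq_zero, h2, false_or] at hx hy
        exact Prod.ext (hx.trans hy.symm) hxy
      rwa [Finset.card_univ, ZMod.card] at this
    · have : (univ.filter (fun x => φ x = 0)).card ≤ (univ : Finset (ZMod p)).card := by
        apply Finset.card_le_card_of_injOn (fun x => x.1) (fun _ _ => mem_univ _)
        intro x hx y hy hxy
        simp only [coe_filter, mem_univ, true_and, Set.mem_ofPred_eq, hk] at hx hy
        refine Prod.ext hxy (mul_left_cancel₀ h1 ?_)
        simp only at hxy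
        rw [hxy] at hx
        linear_combination hy - hx
      rwa [Finset.card_univ, ZMod.card] at this
  have heq := Finset.eq_of_subset_of_card_le hsub (by rw [hT]; exact hcard)
  refine ⟨φ.ker, fun x => ?_⟩
  rw [heq, mem_filter, AddMonoidHom.mem_ker]
  simp

/-- on a subgroup of order `p` every functional is injective or zero -/
theorem dichotomy_of_subgroup (T : Finset (ZMod p × ZMod p)) (hT : T.card = p)
    (H : AddSubgroup (ZMod p × ZMod p)) (hH : ∀ x, x ∈ H ↔ x ∈ T) (u v : ZMod p) :
    Set.InjOn (ell u v) (T : Set (ZMod p × ZMod p)) ∨ ∀ t ∈ T, ell u v t = 0 := by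
  classical
  by_cases hinj : Set.InjOn (ell u v) (T : Set (ZMod p × ZMod p))
  · exact Or.inl hinj
  right
  unfold Set.InjOn at hinj
  push Not at hinj
  obtain ⟨x, hx, y, hy, hxy, hne⟩ := hinj
  set t0 := x - y with ht0
  have ht0ne : t0 ≠ 0 := sub_ne_zero.2 hne
  have ht0H : t0 ∈ H := H.sub_mem ((hH x).2 hx) ((hH y).2 hy)
  have ht0e : ell u v t0 = 0 := by rw [ht0, ell_sub, hxy, sub_self]
  have hsub : (univ : Finset (ZMod p)).image (fun c => (c * t0.1, c * t0.2)) ⊆ T := by
    intro z hz
    rw [mem_image] at hz
    obtain ⟨c, _, rfl⟩ := hz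
    rw [← hH]
    have := H.nsmul_mem ht0H c.val
    have h2 : c.val • t0 = (c * t0.1, c * t0.2) := by
      ext <;> simp
    rwa [h2] at this
  have hcard : ((univ : Finset (ZMod p)).image (fun c => (c * t0.1, c * t0.2))).card = p := by
    rw [Finset.card_image_of_injective, Finset.card_univ, ZMod.card]
    intro c d hcd
    simp only [Prod.mk.injEq] at hcd
    by_cases h1 : t0.1 = 0
    · have h2 : t0.2 ≠ 0 := fun h2 => ht0ne (Prod.ext h1 h2)
      exact mul_right_cancel₀ h2 hcd.2
    · exact mul_right_cancel₀ h1 hcd.1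
  have heq := Finset.eq_of_subset_of_card_le hsub (by rw [hT, hcard])
  intro t ht
  rw [← heq, mem_image] at ht
  obtain ⟨c, _, rfl⟩ := ht
  have : ell u v (c * t0.1, c * t0.2) = c * ell u v t0 := by simp [ell]; ring
  rw [this, ht0e, mul_zero]

open scoped Classical in
/-- Let `S` be a Sidon set of size `p` in `F_p²` and let `T` be the set of the points that are `0`
or are not a difference of two elements of `S`. The following are equivalent:
`T` is a subgroup; more than `(p - 1)/4` of the `p + 1` directions are not determined by `T`;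
all the moments of `S` of degree between `1` and `(p - 1)/4` vanish. -/
theorem result {p : ℕ} [Fact p.Prime] (S : Finset (ZMod p × ZMod p)) (hS : S.card = p)
    (hSid : ∀ a ∈ S, ∀ b ∈ S, ∀ c ∈ S, ∀ d ∈ S,
      a + b = c + d → (a = c ∧ b = d) ∨ (a = d ∧ b = c))
    (T : Finset (ZMod p × ZMod p))
    (hT : ∀ x, x ∈ T ↔ x = 0 ∨ ∀ a ∈ S, ∀ b ∈ S, a - b ≠ x) :
    List.TFAE [
      ∃ H : AddSubgroup (ZMod p × ZMod p), ∀ x, x ∈ H ↔ x ∈ T,
      p - 1 < 4 * (univ.filter fun m : Option (ZMod p) =>
        Set.InjOn (proj m) (T : Set (ZMod p × ZMod p))).card,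
      ∀ i j : ℕ, 1 ≤ i + j → 4 * (i + j) ≤ p - 1 → ∑ s ∈ S, s.1 ^ i * s.2 ^ j = 0] := by
  have hpp := (Fact.out : p.Prime)
  have hp2 : p ≠ 2 := by
    rintro rfl
    obtain ⟨a, b, hab, hSab⟩ := Finset.card_eq_two.1 hS
    have ha : a ∈ S := by rw [hSab]; simp
    have hb : b ∈ S := by rw [hSab]; simp
    have := hSid a ha a ha b hb b hb ((two_add a).trans (two_add b).symm)
    rcases this with h | h
    · exact hab h.1
    · exact hab h.1
  have htwo := hpp.two_le
  have hTcard : T.card = p := card_T S T hS hSid hT
  have h0T : (0 : ZMod p × ZMod p) ∈ T := (hT 0).2 (Or.inl rfl)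
  tfae_have 1 → 2 := by
    rintro ⟨H, hH⟩
    set A := univ.filter fun m : Option (ZMod p) =>
        Set.InjOn (proj m) (T : Set (ZMod p × ZMod p)) with hA
    have hdich : ∀ m : Option (ZMod p), m ∉ A → ∀ t ∈ T, proj m t = 0 := by
      intro m hm
      have hm' : ¬ Set.InjOn (proj m) (T : Set (ZMod p × ZMod p)) := by
        intro h; exact hm (by rw [hA, mem_filter]; exact ⟨mem_univ _, h⟩)
      rcases m with _ | m
      · rw [proj_none_eq] at hm' ⊢
        exact (dichotomy_of_subgroup T hTcard H hH 1 0).resolve_left hm'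
      · rw [proj_some_eq] at hm' ⊢
        exact (dichotomy_of_subgroup T hTcard H hH (-m) 1).resolve_left hm'
    obtain ⟨t0, ht0, hne⟩ : ∃ t ∈ T, t ≠ 0 := by
      by_contra hcon
      push Not at hcon
      have : T ⊆ {0} := fun t ht => by rw [hcon t ht]; simp
      have := Finset.card_le_card this
      rw [hTcard, Finset.card_singleton] at this
      omega
    have hle : (univ \ A).card ≤ 1 := by
      rw [Finset.card_le_one]
      intro m hm m' hm'
      have h1 := hdich m (Finset.mem_sdiff.1 hm).2 t0 ht0
      have h2 := hdich m' (Finset.mem_sdiff.1 hm').2 t0 ht0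
      by_contra hmm
      apply hne
      rcases m with _ | m <;> rcases m' with _ | m'
      · exact absurd rfl hmm
      · simp only [proj] at h1 h2
        rw [h1] at h2
        exact Prod.ext h1 (by simpa using h2)
      · simp only [proj] at h1 h2
        rw [h2] at h1
        exact Prod.ext h2 (by simpa using h1)
      · simp only [proj] at h1 h2
        have h3 : (m' - m) * t0.1 = 0 := by linear_combination h1 - h2
        have h4 : m' - m ≠ 0 := sub_ne_zero.2 (fun h => hmm (by rw [h]))
        have h5 := (mul_eq_zero.1 h3).resolve_left h4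
        rw [h5, mul_zero, sub_zero] at h1
        exact Prod.ext h5 h1
    rw [Finset.card_sdiff_of_subset (Finset.subset_univ A), Finset.card_univ,
      Fintype.card_option, ZMod.card] at hle
    omega
  tfae_have 2 → 3 := by
    intro hN i j hij1 hij2
    apply moments_of_many S (i + j) (by omega)
      (univ.filter fun m : Option (ZMod p) =>
        Set.InjOn (proj m) (T : Set (ZMod p × ZMod p))) (by omega) ?_ i j rfl
    intro m hm
    rw [mem_filter] at hm
    rcases m with _ | m
    · rw [proj_none_eq] at hm ⊢
      exact P_zero_of_Q_zero S T hS hSid hT 1 0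
        (fun k _ hk => Q_zero_of_inj T hTcard 1 0 hm.2 k hk) (i + j) hij1 (by omega)
    · rw [proj_some_eq] at hm ⊢
      exact P_zero_of_Q_zero S T hS hSid hT (-m) 1
        (fun k _ hk => Q_zero_of_inj T hTcard (-m) 1 hm.2 k hk) (i + j) hij1 (by omega)
  tfae_have 3 → 1 := by
    intro hM
    apply subgroup_of_dichotomy T hTcard h0T
    intro u v
    have hP : ∀ k, 1 ≤ k → k < (p - 1) / 4 + 1 → ∑ s ∈ S, ell u v s ^ k = 0 := by
      intro k hk1 hk2
      apply P_zero_of_moments
      intro i j hij
      exact hM i j (by omega) (by omega)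
    exact dichotomy hp2 T hTcard (ell u v) ⟨0, h0T, by simp [ell]⟩ ((p - 1) / 4 + 1) (by omega)
      (fun k hk1 hk2 => Q_zero S T hS hSid hT u v ((p - 1) / 4 + 1) hP k hk1 hk2)
  tfae_finish

end Pool.Agent.Results.MP_bd8c52_co.MomentCriterion
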