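import Mathlib
import Pool.Agent.H47.Sidon.Sym3

set_option autoImplicit false

namespace Pool.Agent.Results.MP_bd8c52_co.AffineSymmetries

open Finset

/-- Let `S` be a Sidon set of size `p` in `F_p²` such that the set `T` of the points that are `0`
or are not a difference of two elements of `S` is not a subgroup. Then every affine bijection
`σ ≠ 1` of the plane that maps `S` into `S` has odd order dividing `p - 1` and exactly one fixed
point, and this point lies in `S`. -/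
theorem result {p : ℕ} [Fact p.Prime] (S : Finset (ZMod p × ZMod p)) (hS : S.card = p)
    (hSid : ∀ a ∈ S, ∀ b ∈ S, ∀ c ∈ S, ∀ d ∈ S,
      a + b = c + d → (a = c ∧ b = d) ∨ (a = d ∧ b = c))
    (T : Finset (ZMod p × ZMod p))
    (hT : ∀ x, x ∈ T ↔ x = 0 ∨ ∀ a ∈ S, ∀ b ∈ S, a - b ≠ x)
    (hno : ¬ ∃ H : AddSubgroup (ZMod p × ZMod p), ∀ x, x ∈ H ↔ x ∈ T)
    (σ : Equiv.Perm (ZMod p × ZMod p))
    (L : (ZMod p × ZMod p) →ₗ[ZMod p] (ZMod p × ZMod p)) (w : ZMod p × ZMod p)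
    (hσ : ∀ x, σ x = L x + w) (hσS : ∀ s ∈ S, σ s ∈ S) (hσ1 : σ ≠ 1) :
    Odd (orderOf σ) ∧ orderOf σ ∣ p - 1 ∧ ∃ x ∈ S, ∀ y, σ y = y ↔ y = x := by
  have hp2 : p ≠ 2 := by
    rintro rfl
    obtain ⟨a, b, hab, hSab⟩ := Finset.card_eq_two.1 hS
    have ha : a ∈ S := by rw [hSab]; simp
    have hb : b ∈ S := by rw [hSab]; simp
    have := hSid a ha a ha b hb b hb
      ((Pool.Agent.Results.MP_bd8c52_co.MomentCriterion.two_add a).trans
        (Pool.Agent.Results.MP_bd8c52_co.MomentCriterion.two_add b).symm)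
    rcases this with h | h
    · exact hab h.1
    · exact hab h.1
  have haff : Pool.Agent.H47.Sidon.IsAff σ := ⟨L, w, hσ⟩
  refine ⟨Pool.Agent.H47.Sidon.odd_order S T hS hSid hT hp2 hno σ haff hσS,
    Pool.Agent.H47.Sidon.order_dvd S T hS hSid hT hp2 hno σ haff hσS hσ1, ?_⟩
  obtain ⟨x, hx, hfx, hu⟩ :=
    Pool.Agent.H47.Sidon.unique_fix S T hS hSid hT hp2 hno σ haff hσS hσ1
  exact ⟨x, hx, fun y => ⟨hu y, fun h => h ▸ hfx⟩⟩

end Pool.Agent.Results.MP_bd8c52_co.AffineSymmetries
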