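import Mathlib
import Pool.Agent.H47.Sidon.Vand

set_option autoImplicit false

namespace Pool.Agent.Results.MP_bd8c52_co.NearArcs

open Finset Pool.Agent.H54.Sidon Pool.Agent.H47.Sidon
open Pool.Agent.Results.MP_bd8c52_co.MomentCriterion (proj proj_none_eq proj_some_eq
  dichotomy_of_subgroup two_add)

variable {p : ℕ}

/-- The number of points of `S` on the line `proj m = c` (the lines `proj m = c` with
`m : Option (ZMod p)` and `c : ZMod p` are all the lines of the plane; `m` is the direction). -/
def lineCard (S : Finset (ZMod p × ZMod p)) (m : Option (ZMod p)) (c : ZMod p) : ℕ :=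
  (S.filter fun s => proj m s = c).card

/-- The number of lines of direction `m` that meet `S` in an odd number of points. -/
def oddLines [NeZero p] (S : Finset (ZMod p × ZMod p)) (m : Option (ZMod p)) : ℕ :=
  (univ.filter fun c : ZMod p => Odd (lineCard S m c)).card

/-- The number of directions in which exactly one line meets `S` in an odd number of points. -/
def oneOdd [NeZero p] (S : Finset (ZMod p × ZMod p)) : ℕ :=
  (univ.filter fun m : Option (ZMod p) => oddLines S m = 1).card

/-- The number of directions in which some line meets `S` in at least three points. -/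
def longDirs [NeZero p] (S : Finset (ZMod p × ZMod p)) : ℕ :=
  (univ.filter fun m : Option (ZMod p) => ∃ c : ZMod p, 3 ≤ lineCard S m c).card

/-- Let `S` be a Sidon set of size `p` in `F_p²` and let `T` be the set of the points that are `0`
or are not a difference of two elements of `S`. -/
theorem result {p : ℕ} [Fact p.Prime] (S : Finset (ZMod p × ZMod p)) (hS : S.card = p)
    (hSid : ∀ a ∈ S, ∀ b ∈ S, ∀ c ∈ S, ∀ d ∈ S,
      a + b = c + d → (a = c ∧ b = d) ∨ (a = d ∧ b = c))
    (T : Finset (ZMod p × ZMod p))
    (hT : ∀ x, x ∈ T ↔ x = 0 ∨ ∀ a ∈ S, ∀ b ∈ S, a - b ≠ x) :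
    List.TFAE [
      ∃ H : AddSubgroup (ZMod p × ZMod p), ∀ x, x ∈ H ↔ x ∈ T,
      ∀ (m : Option (ZMod p)) (c : ZMod p), lineCard S m c ≤ 2,
      4 * longDirs S < p + 7 ∨ 2 * longDirs S + 5 < p,
      p - 1 < 4 * oneOdd S] ∧
    ((¬ ∃ H : AddSubgroup (ZMod p × ZMod p), ∀ x, x ∈ H ↔ x ∈ T) →
      ∀ m : Option (ZMod p), oddLines S m = 1 ∨
        4 * oneOdd S + 2 ≤ 3 * (oddLines S m * (oddLines S m - 1))) := by
  classical
  have hpp := (Fact.out : p.Prime)
  have hp2 : p ≠ 2 := by
    rintro rfl
    obtain ⟨a, b, hab, hSab⟩ := Finset.card_eq_two.1 hS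
    have ha : a ∈ S := by rw [hSab]; simp
    have hb : b ∈ S := by rw [hSab]; simp
    have := hSid a ha a ha b hb b hb ((two_add a).trans (two_add b).symm)
    rcases this with h | h
    · exact hab h.1
    · exact hab h.1
  have htwo := hpp.two_le
  have hodd : p % 2 = 1 := (hpp.eq_two_or_odd).resolve_left hp2
  have hTcard : T.card = p := card_T S T hS hSid hT
  have hfib : ∀ m c, lineCard S m c = fib S m c := fun _ _ => rfl
  have hodl : ∀ m, oddLines S m = (oddSet S m).card := fun _ => rfl
  have htfae := MomentCriterion.result S hS hSid T hT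
  have h12 := htfae.out 0 1
  -- the undetermined directions are those with exactly one odd line
  have hA : (univ.filter fun m : Option (ZMod p) =>
      Set.InjOn (proj m) (T : Set (ZMod p × ZMod p))).card = oneOdd S := by
    rw [oneOdd]
    congr 1
    ext m
    rw [mem_filter, mem_filter, hodl, inj_iff S T hS hSid hT hp2 m]
  have h14 : (∃ H : AddSubgroup (ZMod p × ZMod p), ∀ x, x ∈ H ↔ x ∈ T) ↔
      p - 1 < 4 * oneOdd S := by
    rw [← hA]
    convert h12 using 3
  -- the inequality
  have hineq : (¬ ∃ H : AddSubgroup (ZMod p × ZMod p), ∀ x, x ∈ H ↔ x ∈ T) →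
      ∀ m : Option (ZMod p), oddLines S m = 1 ∨
        4 * oneOdd S + 2 ≤ 3 * (oddLines S m * (oddLines S m - 1)) := by
    intro hno m
    rw [h14] at hno
    by_cases h1 : oddLines S m = 1
    · left; exact h1
    right
    have hm : ¬ Set.InjOn (proj m) (T : Set (ZMod p × ZMod p)) := by
      rw [inj_iff S T hS hSid hT hp2 m, ← hodl]
      exact h1
    have h2 := defect_ge S T hS hSid hT (univ.filter fun m : Option (ZMod p) =>
      Set.InjOn (proj m) (T : Set (ZMod p × ZMod p))) (fun m hm => (mem_filter.1 hm).2)
      (by rw [hA]; omega) m hm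
    have h3 := defect_le S T hS hSid hT hp2 m
    rw [hA] at h2
    rw [hodl]
    omega
  refine ⟨?_, hineq⟩
  tfae_have 1 ↔ 4 := h14
  tfae_have 1 → 2 := by
    rintro ⟨H, hH⟩ m c
    rw [hfib]
    obtain ⟨u, v, huv⟩ := proj_eq_ell m
    rcases dichotomy_of_subgroup T hTcard H hH u v with h | h
    · rw [← huv] at h
      exact fib_le_two S T hS hSid hT hp2 m h c
    · rw [← huv] at h
      have h0 := corr_zero S T hS hSid hT m
      have h1 : fib T m 0 = p := by
        have : (T.filter fun s => proj m s = 0) = T := Finset.filter_true_of_mem h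
        rw [fib, this]; exact hTcard
      have h2 := sum_fib S m
      rw [hS] at h2
      have h3 : ∑ c, fib S m c * fib S m c = ∑ c, fib S m c := by omega
      have hle : ∀ c ∈ (univ : Finset (ZMod p)), fib S m c ≤ fib S m c * fib S m c :=
        fun c _ => Nat.le_mul_self _
      have h4 := (Finset.sum_eq_sum_iff_of_le hle).1 h3.symm c (mem_univ c)
      by_contra hcon
      push Not at hcon
      have h5 := Nat.mul_le_mul_right (fib S m c) (show 2 ≤ fib S m c by omega)
      omega
  tfae_have 2 → 3 := by
    intro h
    left
    have : longDirs S = 0 := by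
      rw [longDirs, Finset.card_eq_zero, Finset.filter_eq_empty_iff]
      rintro m _ ⟨c, hc⟩
      have := h m c
      omega
    rw [this]
    omega
  tfae_have 3 → 1 := by
    intro h
    by_contra hno
    have hq := hineq hno
    rw [h14] at hno
    set N : Finset (Option (ZMod p)) :=
      univ.filter fun m => (∀ c, fib S m c ≤ 2) ∧ fib T m 0 ≠ 1 with hN
    have hcover : (univ : Finset (Option (ZMod p))) ⊆
        (univ.filter fun m : Option (ZMod p) => oddLines S m = 1) ∪
        ((univ.filter fun m : Option (ZMod p) => ∃ c : ZMod p, 3 ≤ lineCard S m c) ∪ N) := by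
      intro m _
      rw [mem_union, mem_union, mem_filter, mem_filter, hN, mem_filter]
      by_cases h3 : ∃ c : ZMod p, 3 ≤ lineCard S m c
      · right; left; exact ⟨mem_univ _, h3⟩
      · push Not at h3
        have h4 : ∀ c, fib S m c ≤ 2 := fun c => by have := h3 c; rw [hfib] at this; omega
        by_cases h5 : fib T m 0 = 1
        · left
          refine ⟨mem_univ _, ?_⟩
          rw [hodl, odd_card_of_le_two S T hS hSid hT m h4, h5]
        · right; right; exact ⟨mem_univ _, h4, h5⟩
    have hc1 := Finset.card_le_card hcover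
    have hc2 := Finset.card_union_le (univ.filter fun m : Option (ZMod p) => oddLines S m = 1)
      ((univ.filter fun m : Option (ZMod p) => ∃ c : ZMod p, 3 ≤ lineCard S m c) ∪ N)
    have hc3 := Finset.card_union_le
      (univ.filter fun m : Option (ZMod p) => ∃ c : ZMod p, 3 ≤ lineCard S m c) N
    rw [Finset.card_univ, Fintype.card_option, ZMod.card] at hc1
    have hcov : p + 1 ≤ oneOdd S + (longDirs S + N.card) := by
      rw [oneOdd, longDirs]
      omega
    have hsum := sum_tau S T hS hSid hT
    -- each direction of `N` has at least `k` nonzero points of `T`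
    have hkN : ∀ k, (∀ m ∈ N, k + 1 ≤ fib T m 0) → p + 1 + k * N.card ≤ 2 * p := by
      intro k hk
      have h1 : ∑ m : Option (ZMod p), (1 + k * (if m ∈ N then 1 else 0)) ≤
          ∑ m : Option (ZMod p), fib T m 0 := by
        apply Finset.sum_le_sum
        intro m _
        by_cases hm : m ∈ N
        · have := hk m hm
          simp only [hm, if_true]
          omega
        · have := fib_pos S T hT m
          simp only [hm, if_false]
          omega
      rw [Finset.sum_add_distrib, ← Finset.mul_sum, ← Finset.card_filter, hsum] at h1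
      simp only [sum_const, card_univ, Fintype.card_option, ZMod.card, smul_eq_mul, mul_one] at h1
      have h2 : (univ.filter fun m => m ∈ N) = N := by ext m; simp
      rw [h2] at h1
      exact h1
    have h3N : ∀ m ∈ N, 2 + 1 ≤ fib T m 0 := by
      intro m hm
      rw [hN, mem_filter] at hm
      obtain ⟨k, hk⟩ := tau_zero_odd S T hS hSid hT hp2 m
      have := hm.2.2
      omega
    have hN2 := hkN 2 h3N
    rcases h with h | h
    · omega
    · rcases Nat.lt_or_ge (oneOdd S) 5 with ha | ha
      · omega
      · have h5N : ∀ m ∈ N, 4 + 1 ≤ fib T m 0 := by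
          intro m hm
          have h3 := h3N m hm
          rw [hN, mem_filter] at hm
          have he : oddLines S m = fib T m 0 := by
            rw [hodl, odd_card_of_le_two S T hS hSid hT m hm.2.1]
          rcases hq m with h6 | h6
          · rw [he] at h6; exact absurd h6 hm.2.2
          · rw [he] at h6
            obtain ⟨k, hk⟩ := tau_zero_odd S T hS hSid hT hp2 m
            by_contra hcon
            have h7 : fib T m 0 = 3 := by omega
            rw [h7] at h6
            omega
        have hN4 := hkN 4 h5N
        omega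
  tfae_finish

end Pool.Agent.Results.MP_bd8c52_co.NearArcs
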